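import Pool.Agent.Helper49.NF.Goals

/-!
# Project NF, packet T3
-/

namespace Pool.Agent.Helper59.NF

open Finset
open Pool.Agent.Helper49.NF
open Pool.Agent.Helper47.SR (Grp mv lev wt Ew W IsInv up dn StarAt HalfStarAt)

theorem goal_T3 (hKKA : Pool.Agent.Helper47.SR.Goal_KKA) : Pool.Agent.Helper49.NF.Goal_T3 := by
  intro n m i G Y hm hY hc hN hi
  have k1 := hKKA n m (m + i) hm (by omega) Y hY hc
  have e1 : m + i - m = i := by omega
  rw [e1] at k1
  have hdn : dn m Y ⊆ lev n (m + 1) := Finset.filter_subset _ _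
  have h1 : W G (dn m Y) ≤ 2 * #(dn m Y) + Nn G (m + 1) 3 := by
    unfold W Nn
    have h2 : ∀ A ∈ dn m Y, 1 + wt G A ≤ 2 + (if 3 ≤ 1 + wt G A then 1 + wt G A else 0) := by
      intro A _
      split_ifs with h
      · omega
      · omega
    calc ∑ A ∈ dn m Y, (1 + wt G A)
        ≤ ∑ A ∈ dn m Y, (2 + (if 3 ≤ 1 + wt G A then 1 + wt G A else 0)) := sum_le_sum h2
      _ = 2 * #(dn m Y) + ∑ A ∈ dn m Y, (if 3 ≤ 1 + wt G A then 1 + wt G A else 0) := by
          rw [sum_add_distrib, sum_const, smul_eq_mul, mul_comm]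
      _ ≤ 2 * #(dn m Y) + ∑ A ∈ lev n (m + 1), (if 3 ≤ 1 + wt G A then 1 + wt G A else 0) := by
          have := Finset.sum_le_sum_of_subset (f := fun A => if 3 ≤ 1 + wt G A then 1 + wt G A else 0)
            hdn
          omega
      _ = _ := by rw [sum_filter]
  have h3 : #Y ≤ W G Y := by
    unfold W
    calc #Y = ∑ A ∈ Y, 1 := by simp
      _ ≤ _ := sum_le_sum fun A _ => by omega
  set w := W G (dn m Y)
  set t := #(dn m Y)
  have h4 : 63 * w ≤ 128 * t := by omega
  have h5 : 63 * (m + 1) * w ≤ 63 * (m + 1) * #Y := by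
    calc 63 * (m + 1) * w = (m + 1) * (63 * w) := by ring
      _ ≤ (m + 1) * (128 * t) := Nat.mul_le_mul_left _ h4
      _ = 128 * ((m + 1) * t) := by ring
      _ ≤ 128 * (i * #Y) := Nat.mul_le_mul_left _ k1
      _ = (128 * i) * #Y := by ring
      _ ≤ (63 * (m + 1)) * #Y := Nat.mul_le_mul_right _ hi
  exact (Nat.le_of_mul_le_mul_left h5 (by omega)).trans h3

end Pool.Agent.Helper59.NF
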